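import Pool.Agent.Helper99.Pak.LWDefs

set_option autoImplicit false

/-! LW-B: Weierstrass function fields inside `Ω`. -/

namespace Pool.Agent.Helper63.Pak

open IntermediateField

namespace LWB

variable {Ω : Type} [Field Ω] [Algebra ℂ Ω]

/-- the homomorphism from the coordinate ring -/
noncomputable def crHom (W : WeierstrassCurve ℂ) (X Y : Ω)
    (h : Polynomial.eval₂ (Polynomial.aeval X : Polynomial ℂ →ₐ[ℂ] Ω) Y W.toAffine.polynomial = 0) :
    W.toAffine.CoordinateRing →ₐ[ℂ] Ω :=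
  AdjoinRoot.liftAlgHom W.toAffine.polynomial (Polynomial.aeval X) Y h

theorem crHom_mk (W : WeierstrassCurve ℂ) (X Y : Ω)
    (h : Polynomial.eval₂ (Polynomial.aeval X : Polynomial ℂ →ₐ[ℂ] Ω) Y W.toAffine.polynomial = 0)
    (p : Polynomial (Polynomial ℂ)) :
    crHom W X Y h (AdjoinRoot.mk _ p) =
      Polynomial.eval₂ (Polynomial.aeval X : Polynomial ℂ →ₐ[ℂ] Ω) Y p :=
  AdjoinRoot.liftAlgHom_mk _ _ _ _ _

theorem crHom_injective (W : WeierstrassCurve ℂ) {X Y : Ω} (hX : Transcendental ℂ X)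
    (h : Polynomial.eval₂ (Polynomial.aeval X : Polynomial ℂ →ₐ[ℂ] Ω) Y W.toAffine.polynomial = 0) :
    Function.Injective (crHom W X Y h) := by
  rw [injective_iff_map_eq_zero]
  intro a ha
  by_contra hne
  have hfin : Module.Finite (Polynomial ℂ) W.toAffine.CoordinateRing :=
    Module.Finite.of_basis (WeierstrassCurve.Affine.CoordinateRing.basis W.toAffine)
  have hint : IsIntegral (Polynomial ℂ) a := IsIntegral.of_finite _ a
  set I : Ideal W.toAffine.CoordinateRing := RingHom.ker (crHom W X Y h)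
  have h1 := Ideal.comap_ne_bot_of_integral_mem (R := Polynomial ℂ) (I := I) hne
    (show a ∈ I from ha) hint
  apply h1
  rw [eq_bot_iff]
  intro p hp
  rw [Ideal.mem_comap] at hp
  have h2 : crHom W X Y h (algebraMap (Polynomial ℂ) W.toAffine.CoordinateRing p) = 0 := hp
  have h3 : crHom W X Y h (algebraMap (Polynomial ℂ) W.toAffine.CoordinateRing p) =
      Polynomial.aeval X p := by
    have h4 : algebraMap (Polynomial ℂ) W.toAffine.CoordinateRing p =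
        AdjoinRoot.mk _ (Polynomial.C p) := rfl
    rw [h4, crHom_mk, Polynomial.eval₂_C]
    rfl
  rw [h3] at h2
  exact (transcendental_iff.1 hX) p h2

theorem poly_eval (W : WeierstrassCurve ℂ) {X Y : Ω}
    (hW : Y ^ 2 + algebraMap ℂ Ω W.a₁ * X * Y + algebraMap ℂ Ω W.a₃ * Y =
      X ^ 3 + algebraMap ℂ Ω W.a₂ * X ^ 2 + algebraMap ℂ Ω W.a₄ * X + algebraMap ℂ Ω W.a₆) :
    Polynomial.eval₂ (Polynomial.aeval X : Polynomial ℂ →ₐ[ℂ] Ω) Y W.toAffine.polynomial = 0 := by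
  unfold WeierstrassCurve.Affine.polynomial
  simp only [Polynomial.eval₂_add, Polynomial.eval₂_sub, Polynomial.eval₂_mul,
    Polynomial.eval₂_pow, Polynomial.eval₂_X, Polynomial.eval₂_C, RingHom.coe_coe, map_add,
    map_mul, map_pow, Polynomial.aeval_X, Polynomial.aeval_C]
  linear_combination hW

/-- the homomorphism from the function field -/
noncomputable def ffHom (W : WeierstrassCurve ℂ) {X Y : Ω} (hX : Transcendental ℂ X)
    (h : Polynomial.eval₂ (Polynomial.aeval X : Polynomial ℂ →ₐ[ℂ] Ω) Y W.toAffine.polynomial = 0) :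
    W.toAffine.FunctionField →ₐ[ℂ] Ω :=
  IsFractionRing.liftAlgHom (K := W.toAffine.FunctionField) (crHom_injective W hX h)

theorem ffHom_algebraMap (W : WeierstrassCurve ℂ) {X Y : Ω} (hX : Transcendental ℂ X)
    (h : Polynomial.eval₂ (Polynomial.aeval X : Polynomial ℂ →ₐ[ℂ] Ω) Y W.toAffine.polynomial = 0)
    (a : W.toAffine.CoordinateRing) :
    ffHom W hX h (algebraMap W.toAffine.CoordinateRing W.toAffine.FunctionField a) =
      crHom W X Y h a :=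
  IsFractionRing.lift_algebraMap (crHom_injective W hX h) a

theorem fieldRange_ffHom (W : WeierstrassCurve ℂ) {X Y : Ω} (hX : Transcendental ℂ X)
    (h : Polynomial.eval₂ (Polynomial.aeval X : Polynomial ℂ →ₐ[ℂ] Ω) Y W.toAffine.polynomial = 0) :
    (ffHom W hX h).fieldRange = ℂ⟮X⟯ ⊔ ℂ⟮Y⟯ := by
  have hXm : X ∈ ℂ⟮X⟯ ⊔ ℂ⟮Y⟯ := (le_sup_left : ℂ⟮X⟯ ≤ _) (mem_adjoin_simple_self ℂ X)
  have hYm : Y ∈ ℂ⟮X⟯ ⊔ ℂ⟮Y⟯ := (le_sup_right : ℂ⟮Y⟯ ≤ ℂ⟮X⟯ ⊔ ℂ⟮Y⟯) (mem_adjoin_simple_self ℂ Y)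
  apply le_antisymm
  · rintro _ ⟨k, rfl⟩
    obtain ⟨a, b, _, rfl⟩ := IsFractionRing.div_surjective (A := W.toAffine.CoordinateRing) k
    have key : ∀ a : W.toAffine.CoordinateRing, crHom W X Y h a ∈ ℂ⟮X⟯ ⊔ ℂ⟮Y⟯ := by
      intro a
      obtain ⟨p, rfl⟩ := AdjoinRoot.mk_surjective a
      rw [crHom_mk, Polynomial.eval₂_eq_sum_range]
      refine sum_mem fun i _ => mul_mem ?_ (pow_mem hYm i)
      change Polynomial.aeval X (p.coeff i) ∈ _
      rw [Polynomial.aeval_eq_sum_range]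
      exact sum_mem fun j _ => IntermediateField.smul_mem _ (pow_mem hXm j)
    change ffHom W hX h (_ / _) ∈ _
    rw [map_div₀, ffHom_algebraMap, ffHom_algebraMap]
    exact div_mem (key a) (key b)
  · refine sup_le ?_ ?_
    · rw [adjoin_simple_le_iff]
      refine ⟨algebraMap W.toAffine.CoordinateRing W.toAffine.FunctionField
        (AdjoinRoot.mk _ (Polynomial.C Polynomial.X)), ?_⟩
      change ffHom W hX h _ = X
      rw [ffHom_algebraMap, crHom_mk, Polynomial.eval₂_C]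
      exact Polynomial.aeval_X X
    · rw [adjoin_simple_le_iff]
      refine ⟨algebraMap W.toAffine.CoordinateRing W.toAffine.FunctionField
        (AdjoinRoot.mk _ Polynomial.X), ?_⟩
      change ffHom W hX h _ = Y
      rw [ffHom_algebraMap, crHom_mk, Polynomial.eval₂_X]

theorem map_ratEval {K L : Type} [Field K] [Algebra ℂ K] [Field L] [Algebra ℂ L] (f : K →ₐ[ℂ] L)
    (θ : K) (A : RatFunc ℂ) : f (RatFunc.eval (algebraMap ℂ K) θ A) =
      RatFunc.eval (algebraMap ℂ L) (f θ) A := by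
  have h : (algebraMap ℂ L) = (f : K →+* L).comp (algebraMap ℂ K) := by
    ext c
    exact (f.commutes c).symm
  unfold RatFunc.eval
  rw [map_div₀]
  have h1 : ∀ p : Polynomial ℂ, f (Polynomial.eval₂ (algebraMap ℂ K) θ p) =
      Polynomial.eval₂ (algebraMap ℂ L) (f θ) p := by
    intro p
    rw [h]
    exact Polynomial.hom_eval₂ p (algebraMap ℂ K) (f : K →+* L) θ
  rw [h1, h1]

end LWB

variable {Ω : Type} [Field Ω] [Algebra ℂ Ω] [CurveUniverse Ω] {A B : RatFunc ℂ}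

/-- if `E = ℂ(X, Y)` with a Weierstrass equation of an elliptic curve and an automorphism of `Ω`
maps `E` into itself, acting on `θ` as `A`, then `A` is a Lattès map -/
theorem isLattesW_of_subfield {X Y : Ω} (hX : Transcendental ℂ X) (W : WeierstrassCurve ℂ)
    [W.IsElliptic]
    (hW : Y ^ 2 + algebraMap ℂ Ω W.a₁ * X * Y + algebraMap ℂ Ω W.a₃ * Y =
      X ^ 3 + algebraMap ℂ Ω W.a₂ * X ^ 2 + algebraMap ℂ Ω W.a₄ * X + algebraMap ℂ Ω W.a₆)
    {g : Ω ≃ₐ[ℂ] Ω} (hg : mapF g (ℂ⟮X⟯ ⊔ ℂ⟮Y⟯) ≤ ℂ⟮X⟯ ⊔ ℂ⟮Y⟯) {θ : Ω} (hθ : θ ∈ ℂ⟮X⟯ ⊔ ℂ⟮Y⟯)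
    (htr : Transcendental ℂ θ) (hA : g θ = ev A θ) : IsLattesW A := by
  have h := LWB.poly_eval W hW
  set Ψ := LWB.ffHom W hX h with hΨ
  have hrange : Ψ.fieldRange = ℂ⟮X⟯ ⊔ ℂ⟮Y⟯ := LWB.fieldRange_ffHom W hX h
  have hinj : Function.Injective Ψ := Ψ.toRingHom.injective
  let e : W.toAffine.FunctionField ≃ₐ[ℂ] Ψ.fieldRange := AlgEquiv.ofInjectiveField Ψ
  have he : ∀ k, ((e k : Ψ.fieldRange) : Ω) = Ψ k := fun k => rfl
  have hgE : ∀ z ∈ Ψ.fieldRange, g z ∈ Ψ.fieldRange := by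
    intro z hz
    rw [hrange] at hz ⊢
    exact hg (apply_mem_mapF.2 hz)
  let ψ : Ψ.fieldRange →ₐ[ℂ] Ψ.fieldRange :=
    ((g : Ω →ₐ[ℂ] Ω).comp Ψ.fieldRange.val).codRestrict Ψ.fieldRange.toSubalgebra
      (fun z => hgE z z.2)
  have hψ : ∀ z : Ψ.fieldRange, ((ψ z : Ψ.fieldRange) : Ω) = g z := fun z => rfl
  have hθ' : θ ∈ Ψ.fieldRange := by rw [hrange]; exact hθ
  obtain ⟨t, ht⟩ := hθ'
  change Ψ t = θ at ht
  refine ⟨W, inferInstance, (e.symm : Ψ.fieldRange →ₐ[ℂ] W.toAffine.FunctionField).comp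
    (ψ.comp (e : W.toAffine.FunctionField →ₐ[ℂ] Ψ.fieldRange)), t, ?_, ?_⟩
  · intro halg
    apply htr
    rw [← ht]
    exact (isAlgebraic_algHom_iff Ψ hinj).2 halg
  · apply hinj
    rw [LWB.map_ratEval, ht]
    change Ψ (e.symm (ψ (e t))) = ev A θ
    rw [← he, e.apply_symm_apply, hψ, he, ht, hA]

end Pool.Agent.Helper63.Pak
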