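import Pool.Agent.Helper98.Pak.Orbi

set_option autoImplicit false

/-! The field of small elements. -/

namespace Pool.Agent.Helper63.Pak

open IntermediateField

variable {Ω : Type} [Field Ω] [Algebra ℂ Ω] [CurveUniverse Ω]
variable {A : RatFunc ℂ} {x x' : ℤ → Ω} {R K K₁ K₂ : IntermediateField ℂ Ω}

/-- small subfields -/
def SmallF (x : ℤ → Ω) (K : IntermediateField ℂ Ω) : Prop := ∀ n : ℤ, 0 ≤ chi (Cx x n ⊔ K)

theorem SmallF.of_le (hPT : PTFacts Ω) (hx : Tower A x) (hK : K.FG) (hK₁ : K₁.FG)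
    (hs : SmallF x K) (n : ℤ) (h : K₁ ≤ Cx x n ⊔ K) : SmallF x K₁ := by
  intro m
  refine chi_nonneg_of_le hPT (hx.sf_ff_sup m hK₁) (hx.sf_ff_sup (max m n) hK) ?_ (hs (max m n))
  refine sup_le ((hx.le' (le_max_left m n)).trans le_sup_left) (h.trans ?_)
  exact sup_le_sup_right (hx.le' (le_max_right m n)) K

theorem SmallF.of_ge (hPT : PTFacts Ω) (hx : Tower A x) (hK : K.FG) (n₀ : ℤ)
    (h : ∀ n, n₀ ≤ n → 0 ≤ chi (Cx x n ⊔ K)) : SmallF x K := by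
  intro m
  exact chi_nonneg_of_le hPT (hx.sf_ff_sup m hK) (hx.sf_ff_sup (max m n₀) hK)
    (sup_le_sup_right (hx.le' (le_max_left m n₀)) K) (h _ (le_max_right m n₀))

omit [CurveUniverse Ω] in
theorem SmallF.bot (hPT : PTFacts Ω) (hx : Tower A x) :
    SmallF x (⊥ : IntermediateField ℂ Ω) := by
  intro n
  rw [sup_bot_eq, hPT.chi_adjoin (hx.trans n)]
  norm_num

/-- Lemma 3 -/
theorem SmallF.sup (hPT : PTFacts Ω) (hA : 2 ≤ rdeg A) (hx : Tower A x) (hK₁ : K₁.FG)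
    (hK₂ : K₂.FG) (h₁ : SmallF x K₁) (h₂ : SmallF x K₂) : SmallF x (K₁ ⊔ K₂) := by
  have hA1 : 1 ≤ rdeg A := by omega
  obtain ⟨n₁, hn₁⟩ := sf_exists_stable hPT hx K₁
  obtain ⟨n₂, hn₂⟩ := sf_exists_stable hPT hx K₂
  refine SmallF.of_ge hPT hx (fg_sup hK₁ hK₂) (max n₁ n₂) fun n hn => ?_
  have hs₁ := hn₁ n ((le_max_left _ _).trans hn)
  have hs₂ := hn₂ n ((le_max_right _ _).trans hn)
  have hbad : ∀ k q, {q' | (pmap A)^[k] q' = q ∧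
      ¬ Nat.lcm (sfNu x n K₁ q) (sfNu x n K₂ q) ∣ locIter A k q'}.ncard ≤
        2 * sfDeg x n K₁ + 2 * sfDeg x n K₂ := by
    intro k q
    have hsub : {q' | (pmap A)^[k] q' = q ∧
        ¬ Nat.lcm (sfNu x n K₁ q) (sfNu x n K₂ q) ∣ locIter A k q'} ⊆
        {q' | (pmap A)^[k] q' = q ∧ ¬ sfNu x n K₁ q ∣ locIter A k q'} ∪
        {q' | (pmap A)^[k] q' = q ∧ ¬ sfNu x n K₂ q ∣ locIter A k q'} := by
      rintro q' ⟨h1, h2⟩
      by_cases h3 : sfNu x n K₁ q ∣ locIter A k q'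
      · right
        exact ⟨h1, fun h4 => h2 (Nat.lcm_dvd h3 h4)⟩
      · left
        exact ⟨h1, h3⟩
    have hfin := iter_fibre_finite hPT hA1 k q
    have hf1 : {q' | (pmap A)^[k] q' = q ∧ ¬ sfNu x n K₁ q ∣ locIter A k q'}.Finite :=
      hfin.subset fun q' h => h.1
    have hf2 : {q' | (pmap A)^[k] q' = q ∧ ¬ sfNu x n K₂ q ∣ locIter A k q'}.Finite :=
      hfin.subset fun q' h => h.1
    calc _ ≤ _ := Set.ncard_le_ncard hsub (hf1.union hf2)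
      _ ≤ _ := Set.ncard_union_le _ _
      _ ≤ _ := add_le_add (sf_ncard_bad_le hPT hA1 hx hK₁ hs₁ h₁ k q)
        (sf_ncard_bad_le hPT hA1 hx hK₂ hs₂ h₂ k q)
  have hmu : ∀ q, 0 < Nat.lcm (sfNu x n K₁ q) (sfNu x n K₂ q) := fun q =>
    Nat.lcm_pos (sfNu_pos hPT hx n hK₁ q) (sfNu_pos hPT hx n hK₂ q)
  refine sf_chi_nonneg_of_orb hPT (hx.trans n) (hx.sf_ff_sup n (fg_sup hK₁ hK₂)) le_sup_left hmu
    (fun v => ?_) (sf_orb_sum_le hPT hA hmu hbad)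
  refine Nat.le_of_dvd (hmu _) ?_
  have e1 : Cx x n ⊔ (K₁ ⊔ K₂) = (Cx x n ⊔ K₁) ⊔ (Cx x n ⊔ K₂) := sup_sup_distrib_left _ _ _
  rw [e1, hPT.e_sup v (hx.ff n) (hx.sf_ff_sup n hK₁) (hx.sf_ff_sup n hK₂) le_sup_left le_sup_left]
  exact Nat.lcm_dvd ((sf_e_dvd_nu hPT hx n hK₁ v).trans (Nat.dvd_lcm_left _ _))
    ((sf_e_dvd_nu hPT hx n hK₂ v).trans (Nat.dvd_lcm_right _ _))

theorem Small.sf_of_mem (hPT : PTFacts Ω) (hx : Tower A x) (hK : K.FG) (hs : SmallF x K) {z : Ω}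
    (hz : z ∈ K) : Small x z :=
  SmallF.of_le hPT hx hK (sf_fg_adjoin_one z) hs 0
    ((adjoin_simple_le_iff.2 hz).trans le_sup_right)

theorem Small.sf_op (hPT : PTFacts Ω) (hA : 2 ≤ rdeg A) (hx : Tower A x) {z₁ z₂ z : Ω}
    (h₁ : Small x z₁) (h₂ : Small x z₂) (hz : z ∈ ℂ⟮z₁⟯ ⊔ ℂ⟮z₂⟯) : Small x z :=
  Small.sf_of_mem hPT hx (fg_sup (sf_fg_adjoin_one z₁) (sf_fg_adjoin_one z₂))
    (SmallF.sup hPT hA hx (sf_fg_adjoin_one z₁) (sf_fg_adjoin_one z₂) h₁ h₂) hz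

theorem exists_smallField (hPT : PTFacts Ω) (hA : 2 ≤ rdeg A) (hx : Tower A x) :
    ∃ R : IntermediateField ℂ Ω, IsSmallField x R := by
  have hl : ∀ z₁ z₂ : Ω, z₁ ∈ ℂ⟮z₁⟯ ⊔ ℂ⟮z₂⟯ := fun z₁ z₂ =>
    (le_sup_left : ℂ⟮z₁⟯ ≤ _) (mem_adjoin_simple_self ℂ z₁)
  have hr : ∀ z₁ z₂ : Ω, z₂ ∈ ℂ⟮z₁⟯ ⊔ ℂ⟮z₂⟯ := fun z₁ z₂ =>
    (le_sup_right : ℂ⟮z₂⟯ ≤ ℂ⟮z₁⟯ ⊔ ℂ⟮z₂⟯) (mem_adjoin_simple_self ℂ z₂)
  let S : Subalgebra ℂ Ω :=
    { carrier := {z | Small x z}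
      mul_mem' := fun {a b} ha hb => Small.sf_op hPT hA hx ha hb (mul_mem (hl a b) (hr a b))
      add_mem' := fun {a b} ha hb => Small.sf_op hPT hA hx ha hb (add_mem (hl a b) (hr a b))
      algebraMap_mem' := fun c => Small.sf_of_mem hPT hx fg_bot (SmallF.bot hPT hx)
        (IntermediateField.algebraMap_mem _ c) }
  refine ⟨S.toIntermediateField fun a ha => ?_, fun z => Iff.rfl⟩
  exact Small.sf_op hPT hA hx (z₁ := a) (z₂ := a) ha ha (inv_mem (hl a a))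

theorem Small.sf_tower (hPT : PTFacts Ω) (hx : Tower A x) (n : ℤ) : Small x (x n) :=
  SmallF.of_le hPT hx fg_bot (sf_fg_adjoin_one (x n)) (SmallF.bot hPT hx) n le_sup_left

theorem IsSmallField.tower_mem (hPT : PTFacts Ω) (hA : 2 ≤ rdeg A) (hx : Tower A x)
    (hR : IsSmallField x R) (n : ℤ) : x n ∈ R := (hR _).2 (Small.sf_tower hPT hx n)

theorem IsSmallField.smallF (hPT : PTFacts Ω) (hA : 2 ≤ rdeg A) (hx : Tower A x)
    (hR : IsSmallField x R) (hK : K.FG) (h : K ≤ R) : SmallF x K := by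
  classical
  have key : ∀ S : Finset Ω, (∀ z ∈ S, Small x z) → SmallF x (adjoin ℂ (S : Set Ω)) := by
    intro S
    induction S using Finset.induction_on with
    | empty =>
      intro _
      rw [Finset.coe_empty, adjoin_empty]
      exact SmallF.bot hPT hx
    | insert z S _ ih =>
      intro hS
      rw [Finset.coe_insert, Set.insert_eq, adjoin_union]
      exact SmallF.sup hPT hA hx (sf_fg_adjoin_one z) (fg_adjoin_finset S)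
        (hS z (Finset.mem_insert_self _ _)) (ih fun w hw => hS w (Finset.mem_insert_of_mem hw))
  obtain ⟨S, rfl⟩ := hK
  exact key S fun z hz => (hR z).1 (h (subset_adjoin ℂ _ hz))

theorem IsSmallField.chi_nonneg (hPT : PTFacts Ω) (hA : 2 ≤ rdeg A) (hx : Tower A x)
    (hR : IsSmallField x R) {K : IntermediateField ℂ Ω} (hK : FF K) (h : K ≤ R) : 0 ≤ chi K :=
  chi_nonneg_of_le hPT hK (hx.sf_ff_sup 0 hK.1) le_sup_right (hR.smallF hPT hA hx hK.1 h 0)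

end Pool.Agent.Helper63.Pak
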