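import Pool.Agent.Helper98.Pak.Small

set_option autoImplicit false

/-! Conjugates of small elements. -/

namespace Pool.Agent.Helper63.Pak

open IntermediateField

variable {Ω : Type} [Field Ω] [Algebra ℂ Ω] [CurveUniverse Ω]
variable {A : RatFunc ℂ} {x x' : ℤ → Ω} {R K K₁ K₂ : IntermediateField ℂ Ω}

theorem sf_isAlgebraic_of_transcendental {t : Ω} (ht : Transcendental ℂ t) :
    Algebra.IsAlgebraic ℂ⟮t⟯ Ω := by
  have h1 : AlgebraicIndependent ℂ (fun _ : Unit => t) :=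
    (algebraicIndependent_unique_type_iff (R := ℂ) (x := fun _ : Unit => t)).2 ht
  have h2 : IsTranscendenceBasis ℂ (fun _ : Unit => t) := by
    refine h1.isTranscendenceBasis_of_trdeg_le ?_ ?_
    · rw [CurveUniverse.trdeg_eq]
      exact Cardinal.one_lt_aleph0
    · rw [CurveUniverse.trdeg_eq]
      simp
  have h3 := h2.isAlgebraic_field
  rwa [Set.range_const] at h3

theorem sf_normal_of_transcendental {t : Ω} (ht : Transcendental ℂ t) : Normal ℂ⟮t⟯ Ω := by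
  have h1 := sf_isAlgebraic_of_transcendental ht
  have h2 : IsAlgClosed Ω := CurveUniverse.isAlgClosed
  have h3 : IsAlgClosure ℂ⟮t⟯ Ω := ⟨h2, h1⟩
  exact IsAlgClosure.normal _ _

omit [CurveUniverse Ω] in
theorem sf_natDegree_minpoly_eq [hal : Algebra.IsAlgebraic K Ω] (z : Ω) :
    (minpoly K z).natDegree = K.relfinrank (K ⊔ ℂ⟮z⟯) := by
  have hint : IsIntegral K z := (hal.isAlgebraic z).isIntegral
  rw [← adjoin.finrank hint, relfinrank_eq_finrank_of_le (le_sup_left : K ≤ K ⊔ ℂ⟮z⟯)]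
  have e : extendScalars (le_sup_left : K ≤ K ⊔ ℂ⟮z⟯) = K⟮z⟯ := by
    apply le_antisymm
    · rw [extendScalars_le_iff]
      refine sup_le ?_ ?_
      · intro w hw
        exact (K⟮z⟯).algebraMap_mem ⟨w, hw⟩
      · rw [adjoin_simple_le_iff]
        exact mem_adjoin_simple_self K z
    · rw [adjoin_simple_le_iff, mem_extendScalars]
      exact (le_sup_right : ℂ⟮z⟯ ≤ K ⊔ ℂ⟮z⟯) (mem_adjoin_simple_self ℂ z)
  rw [e]

theorem sf_exists_fixes_of_stable (hPT : PTFacts Ω) (hx : Tower A x) {n m : ℤ} (hnm : n ≤ m) {z : Ω}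
    (hs : SfStable x n ℂ⟮z⟯) {g : Ω ≃ₐ[ℂ] Ω} (hg : Fixes g (Cx x n)) :
    ∃ h : Ω ≃ₐ[ℂ] Ω, Fixes h (Cx x m) ∧ h z = g z := by
  have hle : Cx x n ≤ Cx x m := hx.le' hnm
  have i1 : Algebra.IsAlgebraic (Cx x n) Ω := sf_isAlgebraic_of_transcendental (hx.trans n)
  have i2 : Algebra.IsAlgebraic (Cx x m) Ω := sf_isAlgebraic_of_transcendental (hx.trans m)
  have i3 : Normal (Cx x m) Ω := sf_normal_of_transcendental (hx.trans m)
  have hin : IsIntegral (Cx x n) z := (i1.isAlgebraic z).isIntegral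
  have him : IsIntegral (Cx x m) z := (i2.isAlgebraic z).isIntegral
  set p : Polynomial (Cx x m) := (minpoly (Cx x n) z).map (inclusion hle : Cx x n →+* Cx x m)
    with hp
  have hev : ∀ w : Ω, Polynomial.aeval w p = Polynomial.aeval w (minpoly (Cx x n) z) := by
    intro w
    rw [hp, Polynomial.aeval_def, Polynomial.aeval_def, Polynomial.eval₂_map]
    rfl
  have hpz : Polynomial.aeval z p = 0 := by rw [hev, minpoly.aeval]
  have hpm : p.Monic := (minpoly.monic hin).map _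
  have hdeg : p.natDegree = (minpoly (Cx x m) z).natDegree := by
    rw [hp, Polynomial.natDegree_map, sf_natDegree_minpoly_eq, sf_natDegree_minpoly_eq]
    exact (hs m hnm).symm
  have heq : minpoly (Cx x m) z = p :=
    (Polynomial.eq_of_monic_of_dvd_of_natDegree_le (minpoly.monic him) hpm
      (minpoly.dvd _ _ hpz) hdeg.le).symm
  have hgz : Polynomial.aeval (g z) (minpoly (Cx x n) z) = 0 := by
    have h1 : (algebraMap (Cx x n) Ω : Cx x n →+* Ω) =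
        ((g : Ω ≃ₐ[ℂ] Ω) : Ω →+* Ω).comp (algebraMap (Cx x n) Ω) := by
      ext w
      exact (hg w w.2).symm
    have h2 : Polynomial.eval₂ (algebraMap (Cx x n) Ω) z (minpoly (Cx x n) z) = 0 :=
      minpoly.aeval (Cx x n) z
    have h3 := Polynomial.hom_eval₂ (minpoly (Cx x n) z) (algebraMap (Cx x n) Ω)
      ((g : Ω ≃ₐ[ℂ] Ω) : Ω →+* Ω) z
    rw [h2, map_zero, ← h1] at h3
    exact h3.symm
  have hconj : IsConjRoot (Cx x m) z (g z) := by
    refine isConjRoot_of_aeval_eq_zero him ?_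
    rw [heq, hev, hgz]
  obtain ⟨σ, hσ⟩ := hconj.symm.exists_algEquiv
  refine ⟨σ.restrictScalars ℂ, fun w hw => ?_, hσ⟩
  exact σ.commutes ⟨w, hw⟩

theorem sf_mapF_sup (g : Ω ≃ₐ[ℂ] Ω) (K₁ K₂ : IntermediateField ℂ Ω) :
    mapF g (K₁ ⊔ K₂) = mapF g K₁ ⊔ mapF g K₂ := IntermediateField.map_sup _ _ _

theorem sf_mapF_adjoin_simple (g : Ω ≃ₐ[ℂ] Ω) (z : Ω) : mapF g ℂ⟮z⟯ = ℂ⟮g z⟯ := by
  change (adjoin ℂ {z}).map (g : Ω →ₐ[ℂ] Ω) = adjoin ℂ {g z}
  rw [adjoin_map, Set.image_singleton]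
  rfl

theorem sf_mapF_of_fixes {g : Ω ≃ₐ[ℂ] Ω} {K : IntermediateField ℂ Ω} (h : Fixes g K) :
    mapF g K = K := by
  ext z
  rw [mem_mapF]
  constructor
  · intro hz
    have h1 := h _ hz
    rw [g.apply_symm_apply] at h1
    rwa [← h1] at hz
  · intro hz
    have h1 := h _ hz
    have h2 : g.symm z = z := by
      conv_lhs => rw [← h1]
      exact g.symm_apply_apply z
    rwa [h2]

theorem IsSmallField.conj_of_stable (hPT : PTFacts Ω) (hx : Tower A x)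
    (hR : IsSmallField x R) {z : Ω} (hz : z ∈ R) {n : ℤ} (hs : SfStable x n ℂ⟮z⟯)
    {g : Ω ≃ₐ[ℂ] Ω} (hg : Fixes g (Cx x n)) : g z ∈ R := by
  rw [hR]
  have hzs := (hR z).1 hz
  refine SmallF.of_ge hPT hx (sf_fg_adjoin_one (g z)) n fun m hm => ?_
  obtain ⟨h, hh, hhz⟩ := sf_exists_fixes_of_stable hPT hx hm hs hg
  have h1 := hPT.chi_map h (hx.sf_ff_sup m (sf_fg_adjoin_one z))
  rw [sf_mapF_sup, sf_mapF_of_fixes hh, sf_mapF_adjoin_simple, hhz] at h1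
  rw [h1]
  exact hzs m

theorem IsSmallField.conj (hPT : PTFacts Ω) (hA : 2 ≤ rdeg A) (hx : Tower A x)
    (hR : IsSmallField x R) {z : Ω} (hz : z ∈ R) :
    ∃ n₀ : ℤ, ∀ n ≥ n₀, ∀ g : Ω ≃ₐ[ℂ] Ω, Fixes g (Cx x n) → g z ∈ R := by
  obtain ⟨n₀, hn₀⟩ := sf_exists_stable hPT hx ℂ⟮z⟯
  exact ⟨n₀, fun n hn g hg => hR.conj_of_stable hPT hx hz (hn₀ n hn) hg⟩

/-- the set of the conjugates of `z` over `K` -/
def sfConj (K : IntermediateField ℂ Ω) (z : Ω) : Set Ω :=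
  {w | ∃ g : Ω ≃ₐ[ℂ] Ω, Fixes g K ∧ g z = w}

theorem sfConj_finite [hal : Algebra.IsAlgebraic K Ω] (z : Ω) : (sfConj K z).Finite := by
  have hint : IsIntegral K z := (hal.isAlgebraic z).isIntegral
  refine (Polynomial.rootSet_finite (minpoly K z) Ω).subset ?_
  rintro w ⟨g, hg, rfl⟩
  rw [Polynomial.mem_rootSet]
  refine ⟨minpoly.ne_zero hint, ?_⟩
  have h1 : (algebraMap K Ω : K →+* Ω) =
      ((g : Ω ≃ₐ[ℂ] Ω) : Ω →+* Ω).comp (algebraMap K Ω) := by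
    ext w
    exact (hg w w.2).symm
  have h2 : Polynomial.eval₂ (algebraMap K Ω) z (minpoly K z) = 0 := minpoly.aeval K z
  have h3 := Polynomial.hom_eval₂ (minpoly K z) (algebraMap K Ω)
    ((g : Ω ≃ₐ[ℂ] Ω) : Ω →+* Ω) z
  rw [h2, map_zero, ← h1] at h3
  exact h3.symm

theorem mem_sfConj_self (K : IntermediateField ℂ Ω) (z : Ω) : z ∈ sfConj K z :=
  ⟨1, fun _ _ => rfl, rfl⟩

theorem sfConj_apply {g : Ω ≃ₐ[ℂ] Ω} (hg : Fixes g K) {z w : Ω} (h : w ∈ sfConj K z) :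
    g w ∈ sfConj K z := by
  obtain ⟨h', hh, rfl⟩ := h
  refine ⟨g * h', fun u hu => ?_, rfl⟩
  rw [AlgEquiv.mul_apply, hh u hu, hg u hu]

theorem sfConj_eq_of_stable (hPT : PTFacts Ω) (hx : Tower A x) {n m : ℤ} (hnm : n ≤ m) {z : Ω}
    (hs : SfStable x n ℂ⟮z⟯) : sfConj (Cx x m) z = sfConj (Cx x n) z := by
  apply Set.Subset.antisymm
  · rintro w ⟨g, hg, rfl⟩
    exact ⟨g, hg.mono (hx.le' hnm), rfl⟩
  · rintro w ⟨g, hg, rfl⟩
    exact sf_exists_fixes_of_stable hPT hx hnm hs hg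

theorem IsSmallField.exists_GS (hPT : PTFacts Ω) (hA : 2 ≤ rdeg A) (hx : Tower A x)
    (hR : IsSmallField x R) {K₀ : IntermediateField ℂ Ω} (hK₀ : K₀.FG) (h : K₀ ≤ R) :
    ∃ N₀ : ℤ, ∀ N ≥ N₀, ∃ K, GS x R N K ∧ K₀ ≤ K := by
  classical
  obtain ⟨S, rfl⟩ := hK₀
  have hS : ∀ z ∈ S, z ∈ R := fun z hz => h (subset_adjoin ℂ _ hz)
  choose f hf using fun z : Ω => sf_exists_stable hPT hx ℂ⟮z⟯
  -- a level at which all the generators are stable
  obtain ⟨n₁, hn₁⟩ : ∃ n₁ : ℤ, ∀ z ∈ S, f z ≤ n₁ := by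
    obtain ⟨b, hb⟩ := (S.finite_toSet.image f).bddAbove
    exact ⟨b, fun z hz => hb ⟨z, hz, rfl⟩⟩
  have hst : ∀ z ∈ S, SfStable x n₁ ℂ⟮z⟯ := fun z hz => hf z n₁ (hn₁ z hz)
  set C : Set Ω := ⋃ z ∈ S, sfConj (Cx x n₁) z with hC
  have hal : Algebra.IsAlgebraic (Cx x n₁) Ω := sf_isAlgebraic_of_transcendental (hx.trans n₁)
  have hCfin : C.Finite := S.finite_toSet.biUnion fun z _ => sfConj_finite z
  have hSC : (S : Set Ω) ⊆ C := fun z hz => Set.mem_biUnion hz (mem_sfConj_self _ z)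
  have hCR : C ⊆ R := by
    intro w hw
    rw [hC, Set.mem_iUnion₂] at hw
    obtain ⟨z, hz, g, hg, rfl⟩ := hw
    exact hR.conj_of_stable hPT hx (hS z hz) (hst z hz) hg
  have hFG : (adjoin ℂ C).FG := fg_adjoin_of_finite hCfin
  obtain ⟨n₂, hn₂⟩ := sf_exists_stable hPT hx (adjoin ℂ C)
  refine ⟨max n₁ n₂, fun N hN => ⟨Cx x N ⊔ adjoin ℂ C, ⟨?_, ?_, ?_, ?_, ?_⟩, ?_⟩⟩
  · exact fg_sup (hx.ff N).1 hFG
  · exact le_sup_left
  · exact sup_le (adjoin_simple_le_iff.2 (hR.tower_mem hPT hA hx N)) (adjoin_le_iff.2 hCR)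
  · intro g hg
    have hN1 : n₁ ≤ N := (le_max_left _ _).trans hN
    have h1 : Cx x N ⊔ adjoin ℂ C ≤ (Cx x N ⊔ adjoin ℂ C).comap (g : Ω →ₐ[ℂ] Ω) := by
      refine sup_le ?_ (adjoin_le_iff.2 fun w hw => ?_)
      · intro w hw
        change g w ∈ Cx x N ⊔ adjoin ℂ C
        rw [hg w hw]
        exact (le_sup_left : Cx x N ≤ Cx x N ⊔ adjoin ℂ C) hw
      · change g w ∈ Cx x N ⊔ adjoin ℂ C
        refine (le_sup_right : adjoin ℂ C ≤ Cx x N ⊔ adjoin ℂ C) (subset_adjoin ℂ C ?_)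
        rw [hC, Set.mem_iUnion₂] at hw ⊢
        obtain ⟨z, hz, hw⟩ := hw
        refine ⟨z, hz, ?_⟩
        rw [← sfConj_eq_of_stable hPT hx hN1 (hst z hz)] at hw ⊢
        exact sfConj_apply hg hw
    exact fun z hz => h1 hz
  · intro k
    have h1 := hn₂ N ((le_max_right _ _).trans hN) (N + k) (by omega)
    unfold sfDeg at h1
    have e1 : (Cx x N ⊔ adjoin ℂ C) ⊔ Cx x (N + k) = Cx x (N + k) ⊔ adjoin ℂ C := by
      rw [sup_comm, ← sup_assoc, sup_eq_left.2 (hx.le N k)]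
    rw [e1]
    exact h1
  · exact (adjoin.mono ℂ _ _ hSC).trans le_sup_right

theorem IsSmallField.map (hPT : PTFacts Ω) (g : Ω ≃ₐ[ℂ] Ω) (hx : Tower A x)
    (hR : IsSmallField x R) : IsSmallField (fun n => g (x n)) (mapF g R) := by
  intro z
  rw [mem_mapF, hR]
  refine forall_congr' fun n => ?_
  have h1 := hPT.chi_map g (hx.sf_ff_sup n (sf_fg_adjoin_one (g.symm z)))
  rw [sf_mapF_sup, sf_mapF_adjoin_simple, sf_mapF_adjoin_simple, g.apply_symm_apply] at h1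
  rw [← h1]

theorem IsSmallField.unique {R' : IntermediateField ℂ Ω} (hR : IsSmallField x R)
    (hR' : IsSmallField x R') : R = R' := by
  ext z
  rw [hR, hR']

theorem IsSmallField.shift (hPT : PTFacts Ω) (hA : 2 ≤ rdeg A) (hx : Tower A x)
    (hR : IsSmallField x R) (m : ℤ) : IsSmallField (fun n => x (n + m)) R := by
  intro z
  rw [hR]
  constructor
  · intro h n
    exact h (n + m)
  · intro h n
    have h1 := h (n - m)
    change 0 ≤ chi (ℂ⟮x (n - m + m)⟯ ⊔ ℂ⟮z⟯) at h1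
    rwa [sub_add_cancel] at h1

theorem IsSmallField.map_shift (hPT : PTFacts Ω) (hA : 2 ≤ rdeg A) (hx : Tower A x)
    (hR : IsSmallField x R) {σ : Ω ≃ₐ[ℂ] Ω} (hσ : ∀ n, σ (x n) = x (n + 1)) : mapF σ R = R := by
  have h1 := hR.map hPT σ hx
  have h2 : (fun n => σ (x n)) = fun n => x (n + 1) := funext hσ
  rw [h2] at h1
  exact h1.unique (hR.shift hPT hA hx 1)

theorem Close.sf_mem (hPT : PTFacts Ω) (hx : Tower A x) {B : RatFunc ℂ} (hx' : Tower B x')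
    (hc : Close x x') (hR : IsSmallField x R) (n : ℤ) : x' n ∈ R := by
  rw [hR]
  intro m
  refine chi_nonneg_of_le hPT (hx.sf_ff_sup m (sf_fg_adjoin_one (x' n)))
    (hx.sf_ff_sup (max m n) (sf_fg_adjoin_one (x' (max m n)))) ?_ (hc (max m n))
  exact sup_le_sup (hx.le' (le_max_left m n)) (hx'.le' (le_max_right m n))

theorem Close.sf_symm (hc : Close x x') : Close x' x := fun n => by
  rw [sup_comm]
  exact hc n

theorem IsSmallField.of_close (hPT : PTFacts Ω) (hA : 2 ≤ rdeg A) (hx : Tower A x)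
    (hx' : Tower A x') (hc : Close x x') (hR : IsSmallField x R) : IsSmallField x' R := by
  obtain ⟨R', hR'⟩ := exists_smallField hPT hA hx'
  intro z
  constructor
  · intro hz n
    refine hR.chi_nonneg hPT hA hx (hx'.sf_ff_sup n (sf_fg_adjoin_one z)) (sup_le ?_ ?_)
    · exact adjoin_simple_le_iff.2 (Close.sf_mem hPT hx hx' hc hR n)
    · exact adjoin_simple_le_iff.2 hz
  · intro hz
    rw [hR]
    intro n
    refine hR'.chi_nonneg hPT hA hx' (hx.sf_ff_sup n (sf_fg_adjoin_one z)) (sup_le ?_ ?_)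
    · exact adjoin_simple_le_iff.2 (Close.sf_mem hPT hx' hx hc.sf_symm hR' n)
    · exact adjoin_simple_le_iff.2 ((hR' z).2 hz)

theorem IsSmallField.pow (hPT : PTFacts Ω) (hA : 2 ≤ rdeg A) (hx : Tower A x)
    (hR : IsSmallField x R) {q : ℕ} (hq : 1 ≤ q) : IsSmallField (fun n => x (q * n)) R := by
  intro z
  rw [hR]
  constructor
  · intro h n
    exact h (q * n)
  · intro h n
    have hle : n ≤ q * |n| := by
      have h1 : (1 : ℤ) ≤ q := by exact_mod_cast hq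
      have h2 := le_abs_self n
      have h3 := abs_nonneg n
      nlinarith
    exact chi_nonneg_of_le hPT (hx.sf_ff_sup n (sf_fg_adjoin_one z))
      (hx.sf_ff_sup (q * |n|) (sf_fg_adjoin_one z)) (sup_le_sup_right (hx.le' hle) _) (h |n|)

end Pool.Agent.Helper63.Pak
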