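import Pool.Agent.Helper33.Pak.Towers
import Pool.Agent.Helper63.Pak.RARat

set_option autoImplicit false

/-! Degrees of composita, stability. -/

namespace Pool.Agent.Helper63.Pak

open IntermediateField

variable {Ω : Type} [Field Ω] [Algebra ℂ Ω]

theorem sf_relfinrank_sup_le {K K' L : IntermediateField ℂ Ω} (h : K ≤ K')
    (h0 : 0 < K.relfinrank K') :
    K'.relfinrank (K' ⊔ L) ≤ K.relfinrank (K ⊔ L) := by
  have h1 := finrank_sup_le (K := K) (L := Ω) (extendScalars h)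
    (extendScalars (le_sup_left : K ≤ K ⊔ L))
  rw [extendScalars_sup] at h1
  have e : K' ⊔ (K ⊔ L) = K' ⊔ L := by
    rw [← sup_assoc, sup_eq_left.2 h]
  have h2 : K.relfinrank (K' ⊔ (K ⊔ L)) ≤ K.relfinrank K' * K.relfinrank (K ⊔ L) := by
    rw [relfinrank_eq_finrank_of_le (h.trans le_sup_left), relfinrank_eq_finrank_of_le h,
      relfinrank_eq_finrank_of_le (le_sup_left : K ≤ K ⊔ L)]
    exact h1
  rw [e, ← relfinrank_mul_relfinrank h le_sup_left] at h2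
  exact Nat.le_of_mul_le_mul_left h2 h0

theorem FF.sf_of_fg_le {K K' : IntermediateField ℂ Ω} (h : FF K) (h1 : K'.FG) (h2 : K ≤ K') :
    FF K' := ⟨h1, fun h3 => h.2 (le_bot_iff.1 (h3 ▸ h2))⟩

theorem sf_fg_adjoin_one (z : Ω) : (ℂ⟮z⟯ : IntermediateField ℂ Ω).FG :=
  fg_adjoin_of_finite (Set.finite_singleton z)

variable [CurveUniverse Ω] {A : RatFunc ℂ} {x : ℤ → Ω} {K K₁ K₂ : IntermediateField ℂ Ω}

theorem Tower.sf_ff_sup (hx : Tower A x) (n : ℤ) (hK : K.FG) : FF (Cx x n ⊔ K) :=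
  (hx.ff n).sf_of_fg_le (fg_sup (hx.ff n).1 hK) le_sup_left

/-- the degree of `ℂ(x n) K` over `ℂ(x n)` -/
noncomputable def sfDeg (x : ℤ → Ω) (n : ℤ) (K : IntermediateField ℂ Ω) : ℕ :=
  (Cx x n).relfinrank (Cx x n ⊔ K)

/-- the degree does not drop any more -/
def SfStable (x : ℤ → Ω) (n : ℤ) (K : IntermediateField ℂ Ω) : Prop :=
  ∀ m : ℤ, n ≤ m → sfDeg x m K = sfDeg x n K

theorem sfDeg_pos (hPT : PTFacts Ω) (hx : Tower A x) (n : ℤ) (hK : K.FG) : 0 < sfDeg x n K :=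
  hPT.relfinrank_pos (hx.ff n) (hx.sf_ff_sup n hK) le_sup_left

theorem sfDeg_anti (hPT : PTFacts Ω) (hx : Tower A x) {n m : ℤ} (h : n ≤ m) :
    sfDeg x m K ≤ sfDeg x n K :=
  sf_relfinrank_sup_le (hx.le' h) (hPT.relfinrank_pos (hx.ff n) (hx.ff m) (hx.le' h))

omit [CurveUniverse Ω] in
theorem SfStable.mono {n m : ℤ} (h : SfStable x n K) (hnm : n ≤ m) : SfStable x m K :=
  fun l hl => by rw [h l (hnm.trans hl), h m hnm]

theorem sf_exists_stable (hPT : PTFacts Ω) (hx : Tower A x) (K : IntermediateField ℂ Ω) :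
    ∃ n₀ : ℤ, ∀ n, n₀ ≤ n → SfStable x n K := by
  classical
  have hex : ∃ c : ℕ, ∃ n : ℤ, sfDeg x n K = c := ⟨_, 0, rfl⟩
  obtain ⟨n, hn⟩ := Nat.find_spec hex
  have hst : SfStable x n K := by
    intro m hm
    refine le_antisymm (sfDeg_anti hPT hx hm) ?_
    rw [hn]
    exact Nat.find_min' hex ⟨m, rfl⟩
  exact ⟨n, fun m hm => hst.mono hm⟩

theorem SfStable.disjoint (hx : Tower A x) {n m : ℤ} (h : SfStable x n K) (hnm : n ≤ m) :
    (Cx x n).relfinrank ((Cx x n ⊔ K) ⊔ Cx x m) =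
      (Cx x n).relfinrank (Cx x n ⊔ K) * (Cx x n).relfinrank (Cx x m) := by
  have e1 : (Cx x n ⊔ K) ⊔ Cx x m = Cx x m ⊔ K := by
    rw [sup_comm, ← sup_assoc, sup_eq_left.2 (hx.le' hnm)]
  have h1 := h m hnm
  unfold sfDeg at h1
  rw [e1, ← h1, mul_comm]
  exact (relfinrank_mul_relfinrank (hx.le' hnm) le_sup_left).symm

end Pool.Agent.Helper63.Pak
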