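import Pool.Agent.Helper98.Pak.Deg

set_option autoImplicit false

/-! The orbifold of a small field over `ℂ(x n)`. -/

namespace Pool.Agent.Helper63.Pak

open IntermediateField

variable {Ω : Type} [Field Ω] [Algebra ℂ Ω] [CurveUniverse Ω]
variable {A : RatFunc ℂ} {x : ℤ → Ω} {K K₁ K₂ : IntermediateField ℂ Ω}

omit [CurveUniverse Ω] in
/-- total ramification bounds the number of ramified places -/
theorem sf_ncard_ram_le (hPT : PTFacts Ω) {K K' : IntermediateField ℂ Ω} (hK : FF K) (hK' : FF K')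
    (h : K ≤ K') : {P : Pl K' | e P.pt K K' ≠ 1}.ncard ≤ Ram K K' := by
  have hfin := hPT.finite_ram hK hK' h
  rw [Set.ncard_eq_toFinset_card _ hfin, Finset.card_eq_sum_ones]
  unfold Ram
  have hsub : (Function.support fun P : Pl K' => e P.pt K K' - 1) ⊆ ↑hfin.toFinset := by
    intro P hP
    rw [Function.mem_support] at hP
    rw [Set.Finite.coe_toFinset, Set.mem_ofPred_eq]
    intro h1
    rw [h1] at hP
    exact hP rfl
  rw [finsum_eq_sum_of_support_subset _ hsub]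
  refine Finset.sum_le_sum fun P hP => ?_
  rw [Set.Finite.mem_toFinset, Set.mem_ofPred_eq] at hP
  have := hPT.e_pos P.pt hK hK' h
  omega

theorem sf_Ram_le_two (hPT : PTFacts Ω) (hx : Tower A x) (n : ℤ) (hK : K.FG)
    (hc : 0 ≤ chi (Cx x n ⊔ K)) : Ram (Cx x n) (Cx x n ⊔ K) ≤ 2 * sfDeg x n K := by
  have h1 := hPT.chi_eq (hx.ff n) (hx.sf_ff_sup n hK) le_sup_left
  rw [hPT.chi_adjoin (hx.trans n)] at h1
  unfold sfDeg
  zify
  linarith

/-- Abhyankar and the joint place: the place over `q'` is ramified when the local degree is not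
divisible by the ramification index. -/
theorem sf_exists_ram (hPT : PTFacts Ω) (hA : 1 ≤ rdeg A) (hx : Tower A x) (hK : K.FG) {n : ℤ}
    (hs : SfStable x n K) (k : ℕ) (v : Pt Ω) (q' : OnePoint ℂ)
    (hq : (pmap A)^[k] q' = val v (x n))
    (h : ¬ e v (Cx x n) (Cx x n ⊔ K) ∣ locIter A k q') :
    ∃ w : Pt Ω, val w (x (n + k)) = q' ∧
      e w (Cx x (n + k)) (Cx x (n + k) ⊔ K) ≠ 1 := by
  obtain ⟨v₂, hv₂⟩ := hPT.exists_val (hx.trans (n + k)) q'
  have h1 : val v₂ (x n) = val v (x n) := by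
    rw [Tower.val_eq hPT hx v₂ n k, hv₂, hq]
  have h2 : SameOn (Cx x n) v v₂ := hPT.sameOn_adjoin (hx.trans n) h1.symm
  have hle : Cx x n ≤ Cx x (n + k) := hx.le n k
  have hnk : n ≤ n + k := by omega
  obtain ⟨w, hw1, hw2⟩ := hPT.exists_joint (hx.ff n) (hx.sf_ff_sup n hK) (hx.ff (n + k))
    le_sup_left hle (hs.disjoint hx hnk) h2
  have hw3 : val w (x (n + k)) = q' := by
    rw [hPT.val_eq_of_sameOn hw2 (mem_adjoin_simple_self ℂ _), hv₂]
  refine ⟨w, hw3, fun h1' => h ?_⟩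
  have h3 : e w (Cx x n) (Cx x n ⊔ K) = e v (Cx x n) (Cx x n ⊔ K) :=
    hPT.e_congr (hx.ff n) (hx.sf_ff_sup n hK) le_sup_left hw1
  have h4 : e w (Cx x n) (Cx x (n + k)) = locIter A k q' := by
    rw [Tower.e_eq hPT hA hx w n k, hw3]
  have h5 := hPT.e_sup w (hx.ff n) (hx.sf_ff_sup n hK) (hx.ff (n + k)) le_sup_left hle
  have e1 : (Cx x n ⊔ K) ⊔ Cx x (n + k) = Cx x (n + k) ⊔ K := by
    rw [sup_comm, ← sup_assoc, sup_eq_left.2 hle]
  rw [e1, e_mul w hle le_sup_left, h1', mul_one, h4, h3] at h5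
  rw [h5]
  exact Nat.dvd_lcm_left _ _

/-- the orbifold function -/
noncomputable def sfNu (x : ℤ → Ω) (n : ℤ) (K : IntermediateField ℂ Ω) (q : OnePoint ℂ) : ℕ :=
  sInf {m : ℕ | 0 < m ∧ ∀ v : Pt Ω, val v (x n) = q → e v (Cx x n) (Cx x n ⊔ K) ∣ m}

omit [CurveUniverse Ω] in
theorem sf_e_le_relfinrank (hPT : PTFacts Ω) (v : Pt Ω) {K K' : IntermediateField ℂ Ω} (hK : FF K)
    (hK' : FF K') (h : K ≤ K') : e v K K' ≤ K.relfinrank K' := by
  rw [← hPT.sum_e v hK hK' h]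
  have hfin := hPT.finite_over v hK hK' h
  rw [finsum_mem_eq_finite_toFinset_sum _ hfin]
  have hmem : Pl.mk K' v ∈ hfin.toFinset := by
    rw [Set.Finite.mem_toFinset, Set.mem_ofPred_eq]
    exact (Pl.sameOn_pt_mk K' v).mono h
  calc e v K K' = e (Pl.mk K' v).pt K K' :=
        (hPT.e_congr hK hK' h (Pl.sameOn_pt_mk K' v)).symm
    _ ≤ _ := Finset.single_le_sum (f := fun P : Pl K' => e P.pt K K') (fun _ _ => Nat.zero_le _) hmem

theorem sfNu_spec (hPT : PTFacts Ω) (hx : Tower A x) (n : ℤ) (hK : K.FG) (q : OnePoint ℂ) :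
    0 < sfNu x n K q ∧ ∀ v : Pt Ω, val v (x n) = q → e v (Cx x n) (Cx x n ⊔ K) ∣ sfNu x n K q := by
  have hne : {m : ℕ | 0 < m ∧ ∀ v : Pt Ω, val v (x n) = q →
      e v (Cx x n) (Cx x n ⊔ K) ∣ m}.Nonempty := by
    refine ⟨((Cx x n).relfinrank (Cx x n ⊔ K)).factorial, Nat.factorial_pos _, fun v _ => ?_⟩
    exact Nat.dvd_factorial (hPT.e_pos v (hx.ff n) (hx.sf_ff_sup n hK) le_sup_left)
      (sf_e_le_relfinrank hPT v (hx.ff n) (hx.sf_ff_sup n hK) le_sup_left)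
  exact Nat.sInf_mem hne

theorem sfNu_pos (hPT : PTFacts Ω) (hx : Tower A x) (n : ℤ) (hK : K.FG) (q : OnePoint ℂ) :
    0 < sfNu x n K q := (sfNu_spec hPT hx n hK q).1

theorem sf_e_dvd_nu (hPT : PTFacts Ω) (hx : Tower A x) (n : ℤ) (hK : K.FG) (v : Pt Ω) :
    e v (Cx x n) (Cx x n ⊔ K) ∣ sfNu x n K (val v (x n)) := (sfNu_spec hPT hx n hK _).2 v rfl

theorem sfNu_dvd (hPT : PTFacts Ω) (hx : Tower A x) (n : ℤ) (hK : K.FG) {q : OnePoint ℂ} {m : ℕ}
    (h : ∀ v : Pt Ω, val v (x n) = q → e v (Cx x n) (Cx x n ⊔ K) ∣ m) :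
    sfNu x n K q ∣ m := by
  obtain ⟨h0, h1⟩ := sfNu_spec hPT hx n hK q
  have h2 : sfNu x n K q ≤ Nat.gcd (sfNu x n K q) m :=
    Nat.sInf_le ⟨Nat.gcd_pos_of_pos_left _ h0, fun v hv => Nat.dvd_gcd (h1 v hv) (h v hv)⟩
  have h3 : Nat.gcd (sfNu x n K q) m = sfNu x n K q :=
    le_antisymm (Nat.le_of_dvd h0 (Nat.gcd_dvd_left _ _)) h2
  rw [← h3]
  exact Nat.gcd_dvd_right _ _

theorem sf_locIter_pos (hPT : PTFacts Ω) (hA : 1 ≤ rdeg A) (k : ℕ) (q : OnePoint ℂ) :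
    0 < locIter A k q := Finset.prod_pos fun _ _ => locDeg_pos hPT hA _

/-- (a) few bad points in the fibres -/
theorem sf_ncard_bad_le (hPT : PTFacts Ω) (hA : 1 ≤ rdeg A) (hx : Tower A x) (hK : K.FG) {n : ℤ}
    (hs : SfStable x n K) (hc : ∀ m, 0 ≤ chi (Cx x m ⊔ K)) (k : ℕ) (q : OnePoint ℂ) :
    {q' | (pmap A)^[k] q' = q ∧ ¬ sfNu x n K q ∣ locIter A k q'}.ncard ≤ 2 * sfDeg x n K := by
  have hle : Cx x n ≤ Cx x (n + k) := hx.le n k
  have hfin := hPT.finite_ram (hx.ff (n + k)) (hx.sf_ff_sup (n + k) hK) le_sup_left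
  have hsub : {q' | (pmap A)^[k] q' = q ∧ ¬ sfNu x n K q ∣ locIter A k q'} ⊆
      (fun P : Pl (Cx x (n + k) ⊔ K) => val P.pt (x (n + k))) ''
        {P : Pl (Cx x (n + k) ⊔ K) | e P.pt (Cx x (n + k)) (Cx x (n + k) ⊔ K) ≠ 1} := by
    rintro q' ⟨hq, hnd⟩
    have h1 : ¬ ∀ v : Pt Ω, val v (x n) = q → e v (Cx x n) (Cx x n ⊔ K) ∣ locIter A k q' :=
      fun h => hnd (sfNu_dvd hPT hx n hK h)
    push Not at h1
    obtain ⟨v, hv, hv2⟩ := h1
    obtain ⟨w, hw, hw2⟩ := sf_exists_ram hPT hA hx hK hs k v q' (hq.trans hv.symm) hv2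
    refine ⟨Pl.mk _ w, ?_, ?_⟩
    · rw [Set.mem_ofPred_eq, hPT.e_congr (hx.ff (n + k)) (hx.sf_ff_sup (n + k) hK) le_sup_left
        (Pl.sameOn_pt_mk _ w)]
      exact hw2
    · change val (Pl.mk _ w).pt (x (n + k)) = q'
      rw [hPT.val_eq_of_sameOn (Pl.sameOn_pt_mk _ w)
        ((le_sup_left : Cx x (n + k) ≤ _) (mem_adjoin_simple_self ℂ _)), hw]
  calc _ ≤ _ := Set.ncard_le_ncard hsub (hfin.image _)
    _ ≤ _ := Set.ncard_image_le hfin
    _ ≤ _ := sf_ncard_ram_le hPT (hx.ff (n + k)) (hx.sf_ff_sup (n + k) hK) le_sup_left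
    _ ≤ 2 * sfDeg x (n + k) K := sf_Ram_le_two hPT hx _ hK (hc _)
    _ = 2 * sfDeg x n K := by rw [hs (n + k) (by omega)]

/-- (b) the size of the fibres -/
theorem sf_card_fibre_mul_le (hPT : PTFacts Ω) (hA : 1 ≤ rdeg A) (k : ℕ) (q : OnePoint ℂ)
    {mu C : ℕ} (hbad : {q' | (pmap A)^[k] q' = q ∧ ¬ mu ∣ locIter A k q'}.ncard ≤ C) :
    ((pmap A)^[k] ⁻¹' {q}).ncard * mu ≤ C * mu + rdeg A ^ k := by
  classical
  have hF := iter_fibre_finite hPT hA k q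
  have hsum := sum_iter_fibre hPT hA k q
  rw [finsum_mem_eq_finite_toFinset_sum _ hF] at hsum
  rw [Set.ncard_eq_toFinset_card _ hF]
  have h1 := Finset.card_filter_add_card_filter_not (s := hF.toFinset)
    (fun q' => mu ∣ locIter A k q')
  have h2 : (hF.toFinset.filter fun q' => ¬ mu ∣ locIter A k q').card ≤ C := by
    refine le_trans (le_of_eq ?_) hbad
    rw [← Set.ncard_coe_finset]
    congr 1
    ext q'
    simp
  have h3 : (hF.toFinset.filter fun q' => mu ∣ locIter A k q').card * mu ≤ rdeg A ^ k := by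
    rw [← hsum, ← smul_eq_mul, ← Finset.sum_const]
    calc _ ≤ ∑ q' ∈ hF.toFinset.filter (fun q' => mu ∣ locIter A k q'), locIter A k q' := by
          refine Finset.sum_le_sum fun q' hq' => ?_
          exact Nat.le_of_dvd (sf_locIter_pos hPT hA k q') (Finset.mem_filter.1 hq').2
      _ ≤ _ := Finset.sum_le_sum_of_subset (Finset.filter_subset _ _)
  calc _ = (hF.toFinset.filter fun q' => mu ∣ locIter A k q').card * mu +
        (hF.toFinset.filter fun q' => ¬ mu ∣ locIter A k q').card * mu := by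
        rw [← add_mul, h1]
    _ ≤ rdeg A ^ k + C * mu := add_le_add h3 (Nat.mul_le_mul_right _ h2)
    _ = _ := add_comm _ _

/-- (c) the orbifold has non-negative Euler characteristic -/
theorem sf_orb_sum_le (hPT : PTFacts Ω) (hA : 2 ≤ rdeg A) {mu : OnePoint ℂ → ℕ}
    (hmu : ∀ q, 0 < mu q) {C : ℕ}
    (hbad : ∀ k q, {q' | (pmap A)^[k] q' = q ∧ ¬ mu q ∣ locIter A k q'}.ncard ≤ C)
    (S : Finset (OnePoint ℂ)) : ∑ q ∈ S, (1 - 1 / (mu q : ℚ)) ≤ 2 := by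
  have hA1 : 1 ≤ rdeg A := by omega
  by_contra hcon
  push Not at hcon
  set s : ℚ := ∑ q ∈ S, (1 - 1 / (mu q : ℚ)) with hs
  have key : ∀ k : ℕ, (rdeg A : ℚ) ^ k * (s - 2) ≤ C * S.card := by
    intro k
    have h1 := iter_rh hPT hA1 k S
    have h1' : ∑ q ∈ S, ((rdeg A : ℚ) ^ k - ((pmap A)^[k] ⁻¹' {q}).ncard) ≤
        2 * (rdeg A : ℚ) ^ k - 2 := by exact_mod_cast h1
    have h2 : ∀ q ∈ S, (rdeg A : ℚ) ^ k * (1 - 1 / (mu q : ℚ)) - C ≤
        (rdeg A : ℚ) ^ k - ((pmap A)^[k] ⁻¹' {q}).ncard := by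
      intro q _
      have h3 := sf_card_fibre_mul_le hPT hA1 k q (hbad k q)
      have h4 : (((pmap A)^[k] ⁻¹' {q}).ncard : ℚ) * mu q ≤ C * mu q + (rdeg A : ℚ) ^ k := by
        exact_mod_cast h3
      have h5 : (0 : ℚ) < mu q := by exact_mod_cast hmu q
      have h6 : (((pmap A)^[k] ⁻¹' {q}).ncard : ℚ) ≤ C + (rdeg A : ℚ) ^ k / mu q := by
        rw [← sub_le_iff_le_add', le_div_iff₀ h5]
        linarith
      have h7 : (rdeg A : ℚ) ^ k * (1 - 1 / (mu q : ℚ)) =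
          (rdeg A : ℚ) ^ k - (rdeg A : ℚ) ^ k / mu q := by ring
      rw [h7]
      linarith
    have h3 := Finset.sum_le_sum h2
    rw [Finset.sum_sub_distrib, ← Finset.mul_sum, ← hs, Finset.sum_const, nsmul_eq_mul] at h3
    nlinarith
  have hpos : 0 < s - 2 := by linarith
  have hd : (1 : ℚ) < rdeg A := by exact_mod_cast (by omega : 1 < rdeg A)
  obtain ⟨k, hk⟩ := pow_unbounded_of_one_lt ((C * S.card : ℚ) / (s - 2)) hd
  rw [div_lt_iff₀ hpos] at hk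
  exact absurd (key k) (not_le.2 hk)

/-- (d) the Euler characteristic of a field whose ramification is bounded by an orbifold -/
theorem sf_chi_nonneg_of_orb (hPT : PTFacts Ω) {t : Ω} (ht : Transcendental ℂ t)
    {K' : IntermediateField ℂ Ω} (hK' : FF K') (h : ℂ⟮t⟯ ≤ K') {mu : OnePoint ℂ → ℕ}
    (hmu : ∀ q, 0 < mu q) (hle : ∀ v : Pt Ω, e v ℂ⟮t⟯ K' ≤ mu (val v t))
    (hS : ∀ S : Finset (OnePoint ℂ), ∑ q ∈ S, (1 - 1 / (mu q : ℚ)) ≤ 2) : 0 ≤ chi K' := by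
  classical
  have hK := ff_adjoin ht
  have hchi := hPT.chi_eq hK hK' h
  rw [hPT.chi_adjoin ht] at hchi
  set D := ℂ⟮t⟯.relfinrank K' with hD
  suffices h2 : (Ram ℂ⟮t⟯ K' : ℚ) ≤ 2 * D by
    have h3 : (Ram ℂ⟮t⟯ K' : ℤ) ≤ 2 * D := by exact_mod_cast h2
    rw [hchi]
    linarith
  have hfin := hPT.finite_ram hK hK' h
  set T : Finset (Pl K') := hfin.toFinset with hT
  set S : Finset (OnePoint ℂ) := T.image fun P => val P.pt t with hSdef
  have hpos : ∀ P : Pl K', 0 < e P.pt ℂ⟮t⟯ K' := fun P => hPT.e_pos _ hK hK' h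
  have hRam : (Ram ℂ⟮t⟯ K' : ℚ) = ∑ P ∈ T, ((e P.pt ℂ⟮t⟯ K' : ℚ) - 1) := by
    unfold Ram
    have hsub : (Function.support fun P : Pl K' => e P.pt ℂ⟮t⟯ K' - 1) ⊆ ↑T := by
      intro P hP
      rw [Function.mem_support] at hP
      rw [hT, Set.Finite.coe_toFinset, Set.mem_ofPred_eq]
      intro h1
      rw [h1] at hP
      exact hP rfl
    rw [finsum_eq_sum_of_support_subset _ hsub, Nat.cast_sum]
    refine Finset.sum_congr rfl fun P _ => ?_
    rw [Nat.cast_sub (hpos P)]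
    norm_num
  rw [hRam, ← Finset.sum_fiberwise_of_maps_to (t := S) (g := fun P : Pl K' => val P.pt t)
    (fun P hP => Finset.mem_image_of_mem _ hP)]
  have hfib : ∀ q ∈ S, ∑ P ∈ T.filter (fun P : Pl K' => val P.pt t = q),
      ((e P.pt ℂ⟮t⟯ K' : ℚ) - 1) ≤ D * (1 - 1 / (mu q : ℚ)) := by
    intro q _
    obtain ⟨v, hv⟩ := hPT.exists_val ht q
    have hfo := hPT.finite_over v hK hK' h
    have hsum := hPT.sum_e v hK hK' h
    rw [finsum_mem_eq_finite_toFinset_sum _ hfo, ← hD] at hsum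
    set F := hfo.toFinset with hF
    have hmemF : ∀ P : Pl K', P ∈ F ↔ val P.pt t = q := by
      intro P
      rw [hF, Set.Finite.mem_toFinset, Set.mem_ofPred_eq]
      constructor
      · intro h1
        rw [hPT.val_eq_of_sameOn h1 (mem_adjoin_simple_self ℂ t), hv]
      · intro h1
        exact hPT.sameOn_adjoin ht (h1.trans hv.symm)
    have h1 : ∑ P ∈ T.filter (fun P : Pl K' => val P.pt t = q),
        ((e P.pt ℂ⟮t⟯ K' : ℚ) - 1) ≤ ∑ P ∈ F, ((e P.pt ℂ⟮t⟯ K' : ℚ) - 1) := by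
      refine Finset.sum_le_sum_of_subset_of_nonneg ?_ ?_
      · intro P hP
        exact (hmemF P).2 (Finset.mem_filter.1 hP).2
      · intro P _ _
        have : (1 : ℚ) ≤ e P.pt ℂ⟮t⟯ K' := by exact_mod_cast hpos P
        linarith
    refine h1.trans ?_
    rw [Finset.sum_sub_distrib, Finset.sum_const, nsmul_eq_mul, mul_one]
    have h2 : (∑ P ∈ F, (e P.pt ℂ⟮t⟯ K' : ℚ)) = D := by exact_mod_cast hsum
    have h3 : D ≤ F.card * mu q := by
      rw [← hsum, ← smul_eq_mul, ← Finset.sum_const]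
      refine Finset.sum_le_sum fun P hP => ?_
      have := hle P.pt
      rwa [(hmemF P).1 hP] at this
    have h4 : (D : ℚ) ≤ F.card * mu q := by exact_mod_cast h3
    have h5 : (0 : ℚ) < mu q := by exact_mod_cast hmu q
    rw [h2]
    have h6 : (D : ℚ) / mu q ≤ F.card := by rwa [div_le_iff₀ h5]
    have h7 : (D : ℚ) * (1 - 1 / (mu q : ℚ)) = D - D / mu q := by ring
    rw [h7]
    linarith
  calc _ ≤ ∑ q ∈ S, (D : ℚ) * (1 - 1 / (mu q : ℚ)) := Finset.sum_le_sum hfib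
    _ = D * ∑ q ∈ S, (1 - 1 / (mu q : ℚ)) := by rw [Finset.mul_sum]
    _ ≤ D * 2 := mul_le_mul_of_nonneg_left (hS S) (Nat.cast_nonneg _)
    _ = 2 * D := mul_comm _ _

end Pool.Agent.Helper63.Pak
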